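import Pool.Agent.Y133.Chow.Hom

/-!
# MP_32dfd1_ag: the growth of the groups of homologically trivial cycles on the powers of a variety

Let `X` be a smooth projective variety over a field `k`, for example `ℚ^alg`. Let `b(n)` be the
dimension of the Chow ring of `X^n` with rational coefficients, `h(n)` the dimension of the subspace
of homologically trivial elements (both possibly infinite) and `a(n)` the dimension of the space of
cycles on `X^n` modulo numerical equivalence. Then `b(n) / a(n)` converges to some
`N ∈ {1, 2, 3, …, ∞}`, and `N = 1` if and only if on all powers of `X` the homologically trivial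
elements are zero and homological and numerical equivalence agree. If homological and numerical
equivalence agree on the powers of `X`, then `h(n) / a(n)` converges to `N - 1 ∈ {0, 1, 2, …, ∞}`:
either all homologically trivial cycles on all powers of `X` are torsion, or the dimension of the
space of homologically trivial cycles is asymptotically at least the rank of the cycles modulo
homological equivalence. If `N` is finite then `z × z × ⋯ × z = 0` (`N` factors) for homologically
trivial `z`.

If `X` has no odd cohomology, for example for a K3 surface over `ℚ^alg`, then all powers of `X` and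
all codimensions `m` satisfy the condition `H^(2m-1) = 0` of the question.
-/

open CategoryTheory AlgebraicGeometry Filter Topology

universe u v w

namespace Pool.Agent.Results.MP_32dfd1_ag.HomTrivialIndex

open Pool.Agent.H914 Pool.Agent.H914.VarClass Pool.Agent.H914.VarClass.Obj
  Pool.Agent.H914.WeilCohomology Pool.Agent.W492.BB Pool.Agent.TH133 Pool.Agent.Y133.Chow
  Pool.Agent.Y129

variable {k : Type u} [Field k] {𝒱 : VarClass k} {ops : CycleOps 𝒱}

theorem result {W : WeilCohomology.{u, v} ops} {C : TheoryData.{u, w, 0} 𝒱 ℚ} [IsChowProj C]
    (c : ClassMap W C) (X : 𝒱.Obj) [Nontrivial (W.H X)] :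
    ∃ N : ℕ∞, 1 ≤ N ∧
      RatioTendsTo (fun n => chowDim C (pw X n)) (fun n => numDim c (pw X n)) N ∧
      (N = 1 ↔ HomIsNum c X ∧ ∀ n x, HomTrivial c (pw X n) x → x = 0) ∧
      (HomIsNum c X →
        RatioTendsTo (fun n => homDim c (pw X n)) (fun n => numDim c (pw X n)) (N - 1)) ∧
      ∀ r : ℕ, N ≤ r + 1 → ∀ n x, HomTrivial c (pw X n) x → extPow C x r = 0 :=
  hom_index c X

end Pool.Agent.Results.MP_32dfd1_ag.HomTrivialIndex
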