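import Pool.Agent.Y712.AJ.Odd

/-!
# Homologically trivial cycles on varieties without odd cohomology

Let `C` be the Chow theory (with rational coefficients) of a class of smooth projective varieties over an
algebraically closed field of characteristic zero and `H` the Betti (or `ℓ`-adic) cohomology.

1. The class of all varieties. For each `i ≥ 0`: homologically trivial cycles of dimension `i` are zero
   in `CH_i(X)_ℚ` for all `X` with `H_l(X) = 0` for the odd `l ≤ 2 i + 1`, if and only if this is true
   for the `X` of dimension **`2 i + 2`** with the same property. (Zero-cycles: surfaces with `H^1 = 0`;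
   one-cycles: fourfolds with `H^1 = H^3 = 0`.) By the problem, `CH^m_hom(X)_ℚ` should be zero, for
   `m = dim X - i`, already if `H^{2m-1}(X) = H_{2i+1}(X) = 0`.
2. The class of all varieties without odd cohomology; it contains all products, projective bundles and
   blow-ups of its members in its members. Homologically trivial cycles of all codimensions on all
   members are zero if and only if for all **rational** members `X` and all `n ≥ 1`: if the power
   `K_X ^ n` of the **canonical class** is homologically trivial, then `K_X ^ n = 0` in `CH^n(X)_ℚ`. The
   same for the powers `v ^ n` of the divisors `v` on the rational members of dimension `2 n`, and for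
   the Chern classes of the vector bundles on the rational members.
3. For each single member `X`: homologically trivial cycles of all codimensions on `X` are zero if and
   only if this is so for the power `r + 1` of the canonical class of `P(E)`, for all vector bundles `E`
   on `X` of rank `r` with `c_1(E) = - K_X`.

For (1) the cycles are moved to complete intersections of dimension `2 i + 2` in products of `X` with
projective spaces (`HasSections`: resolution of singularities, Bertini, weak Lefschetz). For (2) and
(3) the library `Y101.Aq` is applied to homological and rational equivalence.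
-/

set_option autoImplicit false

open CategoryTheory AlgebraicGeometry

universe u v w w''

namespace Pool.Agent.Results.MP_32dfd1_ag.NoOddCohomology

open Pool.Agent.Y101.Aq Pool.Agent.H914 VarClass Obj Pool.Agent.W492.BB Pool.Agent.TH133
  Pool.Agent.Y712.Odd

/-- **Part 1**: reduction to the cycles of dimension `i` on varieties of dimension `2 i + 2`. -/
def PartOne : Prop :=
  ∀ (k : Type u) [Field k] (𝒱 : VarClass k) (C : TheoryData.{u, v, 0} 𝒱 ℚ) [IsChowProj C]
    (K : Type w) [Field K] (H : WeilTheoryData.{u, v, w} C K) [IsWeilProj H],
    HasSections H → ∀ i, DimensionReduction H i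

/-- **Part 2**: reduction to the powers of the canonical classes of the varieties in `R`. -/
def PartTwo : Prop :=
  ∀ (k : Type u) [Field k] (𝒱 : VarClass k) (C : TheoryData.{u, v, 0} 𝒱 ℚ) [IsChowProj C]
    (K : Type w) [Field K] (H : WeilTheoryData.{u, v, w} C K) [IsWeilProj H]
    (D : BundleData.{u, v, w''} C) (can : ∀ X : 𝒱.Obj, C.A X) (R : 𝒱.Obj → Prop),
    IsBundleTheory D → IsCanonical D can → IsRationalClass D R →
    List.TFAE [∀ X, AllHomZero H X, ∀ X, R X → CanZero can H X, ∀ X, R X → MiddleZero D H X,
      ∀ X, R X → BundleZero D H X]

/-- **Part 3**: one variety and the canonical classes of its projective bundles. -/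
def PartThree : Prop :=
  ∀ (k : Type u) [Field k] (𝒱 : VarClass k) (C : TheoryData.{u, v, 0} 𝒱 ℚ) [IsChowProj C]
    (K : Type w) [Field K] (H : WeilTheoryData.{u, v, w} C K) [IsWeilProj H]
    (D : BundleData.{u, v, w''} C) (can : ∀ X : 𝒱.Obj, C.A X) (X : 𝒱.Obj),
    IsBundleTheory D → IsCanonical D can → (∀ a : C.A X, C.Deg 1 a → H.cl a = 0 → a = 0) →
    List.TFAE [AllHomZero H X, AnticanonicalZero D can H X, BundleZero D H X,
      ∀ E : D.B X, 1 ≤ D.rk E → AllHomZero H (D.P E)]

/-- **Homologically trivial cycles on varieties without odd cohomology.** -/
theorem result : PartOne.{u, v, w} ∧ PartTwo.{u, v, w, w''} ∧ PartThree.{u, v, w, w''} := by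
  refine ⟨?_, ?_, ?_⟩
  · intro k _ 𝒱 C _ K _ H _ hS i
    exact dim_reduction hS i
  · intro k _ 𝒱 C _ K _ H _ D can R hD hcan hR
    exact hom_global hD hcan hR
  · intro k _ 𝒱 C _ K _ H _ D can X hD hcan h1
    exact hom_local hD hcan X h1

end Pool.Agent.Results.MP_32dfd1_ag.NoOddCohomology
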